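import Mathlib
import Pool.Agent.Work.MP_bd2dcc_nt.Main

set_option autoImplicit false

namespace Pool.Agent.Results.MP_bd2dcc_nt.AlmostPrimeAverages

theorem result (N B : ℕ) : ∃ (R C κ : ℕ) (δ c : ℝ), 0 < δ ∧ 0 < c ∧ ∀ᶠ X : ℕ in Filter.atTop,
    c * X / Real.log X ^ κ ≤ (Set.ncard {t : ℕ | Nat.nth Nat.Prime (t + N) ≤ X ∧
      Nat.nth Nat.Prime (t + N) ≤ Nat.nth Nat.Prime t + C ∧
      ∀ (g : ℕ) (a : ℕ → ℤ), 1 ≤ g → g ≤ B → (∀ i ≤ N, |a i| ≤ B) →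
        ∑ i ∈ Finset.range (N + 1), a i = g → ∃ y q ρ : ℕ, 0 < y ∧
          ∑ i ∈ Finset.range (N + 1), a i * (Nat.nth Nat.Prime (t + i) : ℤ) = g * y ∧
          y.primeFactorsList.length ≤ R ∧ y = q * ρ ∧ (q = 1 ∨ q.Prime) ∧ q ≤ C ∧
          ∀ p : ℕ, p.Prime → p ∣ ρ → (X : ℝ) ^ δ < p} : ℝ) :=
  Pool.Agent.Work.MP_bd2dcc_nt.main N B

end Pool.Agent.Results.MP_bd2dcc_nt.AlmostPrimeAverages
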