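import Mathlib
import Pool.Agent.Work.MP_bd2dcc_nt.RG.Main

set_option autoImplicit false

namespace Pool.Agent.Results.MP_bd2dcc_nt.RamseyGaps

theorem result (k m r : ℕ) : ∃ (B κ X₀ : ℕ) (c₀ : ℝ), 0 < c₀ ∧
    ∀ c : (Fin r → ℕ) → Fin k, ∃ i : Fin k, ∀ X : ℕ, X₀ ≤ X →
      c₀ * X / Real.log X ^ κ ≤ (Set.ncard {t : ℕ | Nat.nth Nat.Prime (t + m) ≤ X ∧
        Nat.nth Nat.Prime (t + m) ≤ Nat.nth Nat.Prime t + B ∧
        ∀ a : Fin (r + 1) → ℕ, StrictMono a → a (Fin.last r) ≤ m →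
          c (fun j => Nat.nth Nat.Prime (t + a j.succ) -
            Nat.nth Nat.Prime (t + a j.castSucc)) = i} : ℝ) :=
  Pool.Agent.Work.MP_bd2dcc_nt.RG.main k m r

end Pool.Agent.Results.MP_bd2dcc_nt.RamseyGaps
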